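import Mathlib

/-!
# Derivations of the algebraic closure (package X_Free)
-/

set_option autoImplicit false

open Polynomial

namespace Pool.Agent.Helper15.BX

/-- derivations extend along formally etale algebras -/
theorem ext_etale {S R L : Type} [CommRing S] [CommRing R] [Field L] [Algebra S R] [Algebra R L]
    [Algebra S L] [IsScalarTower S R L] [Algebra.FormallyEtale R L] (d : Derivation S R L) :
    ∃ D : Derivation S L L, ∀ q : R, D (algebraMap R L q) = d q := by
  let e := KaehlerDifferential.tensorKaehlerEquivOfFormallyEtale S R L
  let l : Ω[R⁄S] →ₗ[R] L := d.liftKaehlerDifferential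
  let Λ : Ω[L⁄S] →ₗ[L] L := (LinearMap.liftBaseChange L l).comp e.symm.toLinearMap
  let D : Derivation S L L := Λ.compDer (KaehlerDifferential.D S L)
  refine ⟨D, fun q => ?_⟩
  change LinearMap.liftBaseChange L l (e.symm (KaehlerDifferential.D S L (algebraMap R L q))) = d q
  rw [KaehlerDifferential.tensorKaehlerEquivOfFormallyEtale_symm_D_algebraMap]
  simp [l]

/-- derivations of a domain of characteristic zero extend to the algebraic closure -/
theorem ext_cl {S R : Type} [CommRing S] [CommRing R] [IsDomain R] [CharZero R] [Algebra S R]
    (d : Derivation S R (AlgebraicClosure (FractionRing R))) :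
    ∃ D : Derivation S (AlgebraicClosure (FractionRing R)) (AlgebraicClosure (FractionRing R)),
      ∀ q : R, D (algebraMap R (AlgebraicClosure (FractionRing R)) q) = d q := by
  have hchar : CharZero (FractionRing R) := inferInstance
  have hsep : Algebra.IsSeparable (FractionRing R) (AlgebraicClosure (FractionRing R)) :=
    inferInstance
  have h1 : Algebra.FormallyEtale (FractionRing R) (AlgebraicClosure (FractionRing R)) :=
    Algebra.FormallyEtale.of_isSeparable _ _
  have h2 : Algebra.FormallyEtale R (FractionRing R) :=
    Algebra.FormallyEtale.of_isLocalization (nonZeroDivisors R)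
  have h3 : Algebra.FormallyEtale R (AlgebraicClosure (FractionRing R)) :=
    Algebra.FormallyEtale.comp R (FractionRing R) (AlgebraicClosure (FractionRing R))
  exact ext_etale d

variable {S R₀ R L : Type} [CommRing S] [CommRing R₀] [CommRing R] [Field L] [Algebra S R]
  [Algebra R L] [Algebra S L] [IsScalarTower S R L]

/-- the derivative of the value at `a` -/
theorem D_aeval (D : Derivation S L L) (φ : R₀ →+* R) (h : ∀ c, D (algebraMap R L (φ c)) = 0)
    (a : L) (p : R₀[X]) :
    D (aeval a (p.map φ)) = aeval a (derivative (p.map φ)) * D a := by
  induction p using Polynomial.induction_on' with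
  | add p q hp hq =>
    rw [Polynomial.map_add, map_add, map_add, hp, hq, derivative_add, map_add, add_mul]
  | monomial n c =>
    rw [Polynomial.map_monomial, aeval_monomial, Derivation.leibniz, h, smul_zero, add_zero,
      Derivation.leibniz_pow, derivative_monomial, aeval_monomial, map_mul, map_natCast]
    simp only [smul_eq_mul, nsmul_eq_mul]
    ring

theorem D_f (D : Derivation S L L) (φ : R₀ →+* R) (h : ∀ c, D (algebraMap R L (φ c)) = 0) (s : R)
    (hs : D (algebraMap R L s) = 1) (p : R₀[X]) {f : R[X]} (hf : f = p.map φ + Polynomial.C s * X)
    (a : L) : D (aeval a f) = aeval a (derivative f) * D a + a := by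
  have h1 : derivative f = derivative (p.map φ) + Polynomial.C s := by
    rw [hf, derivative_add, derivative_C_mul, derivative_X, mul_one]
  rw [h1, map_add, aeval_C, hf, map_add, map_add, D_aeval D φ h, map_mul, aeval_C, aeval_X,
    Derivation.leibniz, hs]
  simp only [smul_eq_mul]
  ring

theorem D_f' (D : Derivation S L L) (φ : R₀ →+* R) (h : ∀ c, D (algebraMap R L (φ c)) = 0) (s : R)
    (hs : D (algebraMap R L s) = 1) (p : R₀[X]) {f : R[X]} (hf : f = p.map φ + Polynomial.C s * X)
    (a : L) :
    D (aeval a (derivative f)) = aeval a (derivative (derivative f)) * D a + 1 := by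
  have h1 : derivative f = (derivative p).map φ + Polynomial.C s := by
    rw [hf, derivative_add, derivative_C_mul, derivative_X, mul_one, derivative_map]
  rw [h1, map_add, aeval_C, map_add, hs, D_aeval D φ h, derivative_add, derivative_C, add_zero]

end Pool.Agent.Helper15.BX
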