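import Pool.Agent.Helper62.BX.Stm
import Pool.Agent.Helper15.BX.FreeD

/-!
# The linear coefficient is free (package X_Free)
-/

set_option autoImplicit false

open Polynomial NumberField

namespace Pool.Agent.Helper15.BX

open Pool.Agent.Helper62.BX

theorem x_free : X_Free := by
  intro K _ _ r g hg h f hh hf
  have hinj : Function.Injective
      (MvPolynomial.rename (R := 𝓞 K) (Fin.castSucc : Fin r → Fin (r + 1))).toRingHom :=
    MvPolynomial.rename_injective _ (Fin.castSucc_injective r)
  -- the derivation
  let d : Derivation (𝓞 K) (Rp K (r + 1)) (Cl K (r + 1)) :=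
    MvPolynomial.mkDerivation (𝓞 K) fun i => if i = Fin.last r then 1 else 0
  obtain ⟨D, hD⟩ := ext_cl d
  have hs : D (algebraMap (Rp K (r + 1)) (Cl K (r + 1)) (MvPolynomial.X (Fin.last r))) = 1 := by
    rw [hD]
    simp [d]
  have h0 : ∀ c : Rp K r, D (algebraMap (Rp K (r + 1)) (Cl K (r + 1))
      ((MvPolynomial.rename (R := 𝓞 K) Fin.castSucc).toRingHom c)) = 0 := by
    intro c
    rw [hD]
    change d (MvPolynomial.rename Fin.castSucc c) = 0
    induction c using MvPolynomial.induction_on with
    | C a => simp [d]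
    | add p q hp hq => rw [map_add, map_add, hp, hq, add_zero]
    | mul_X p i hp =>
      rw [map_mul, Derivation.leibniz, hp, smul_zero, add_zero, MvPolynomial.rename_X]
      have : d (MvPolynomial.X (Fin.castSucc i)) = 0 := by
        simp only [d, MvPolynomial.mkDerivation_X]
        rw [if_neg (Fin.castSucc_lt_last i).ne]
      rw [this, smul_zero]
  refine ⟨?_, ?_, ?_⟩
  · rw [hf, natDegree_add_eq_left_of_natDegree_lt]
    · rw [natDegree_map_eq_of_injective hinj, hh]
    · rw [natDegree_map_eq_of_injective hinj, hh]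
      refine lt_of_le_of_lt (natDegree_C_mul_le _ _) ?_
      rw [natDegree_X]
      omega
  · refine (Polynomial.isCoprime_iff_aeval_ne_zero_of_isAlgClosed _ (Cl K (r + 1)) _ _).2 ?_
    intro a
    by_contra hn
    push Not at hn
    obtain ⟨h1, h2⟩ := hn
    rw [derivative_map, aeval_map_algebraMap] at h2
    rw [aeval_map_algebraMap] at h1
    have h3 := D_f' D _ h0 _ hs h hf a
    rw [h1, h2, map_zero, zero_mul, zero_add] at h3
    exact zero_ne_one h3
  · intro a b ha hb hab
    have h1 := D_f D _ h0 _ hs h hf a
    have h2 := D_f D _ h0 _ hs h hf b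
    rw [ha, zero_mul, zero_add] at h1
    rw [hb, zero_mul, zero_add] at h2
    rw [← h1, ← h2, hab]

end Pool.Agent.Helper15.BX
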