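import Pool.Agent.Helper62.BX.Stm

/-!
# Number theoretic facts for `X_Most`
-/

set_option autoImplicit false

open Finset NumberField IsDedekindDomain

namespace Pool.Agent.Helper15.BX

open Pool.Agent.Helper62.BX

section

variable {K : Type} [Field K] [NumberField K]

theorem absNorm_two (v : HeightOneSpectrum (𝓞 K)) : 2 ≤ Ideal.absNorm v.asIdeal := by
  have h0 : Ideal.absNorm v.asIdeal ≠ 0 := by
    rw [Ne, Ideal.absNorm_eq_zero_iff]
    exact v.ne_bot
  have h1 : Ideal.absNorm v.asIdeal ≠ 1 := by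
    rw [Ne, Ideal.absNorm_eq_one_iff]
    exact v.isPrime.ne_top
  omega

/-- the places that divide `a` -/
theorem pow_card_le (a : 𝓞 K) (ha : a ≠ 0) (S : Finset (HeightOneSpectrum (𝓞 K)))
    (hS : ∀ v ∈ S, a ∈ v.asIdeal) : 2 ^ S.card ≤ (Algebra.norm ℤ a).natAbs := by
  have h1 : (∏ v ∈ S, v.asIdeal) ∣ Ideal.span {a} := by
    apply Finset.prod_dvd_of_coprime
    · intro v _ w _ hvw
      have hne : v.asIdeal ≠ w.asIdeal := fun h => hvw (HeightOneSpectrum.ext h)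
      exact Ideal.isCoprime_iff_sup_eq.2 (Ideal.IsMaximal.coprime_of_ne v.isMaximal w.isMaximal hne)
    · intro v hv
      exact Ideal.dvd_span_singleton.2 (hS v hv)
  have h2 := Ideal.absNorm_dvd_absNorm_of_le (Ideal.le_of_dvd h1)
  rw [map_prod, Ideal.absNorm_span_singleton] at h2
  have h3 : (Algebra.norm ℤ a).natAbs ≠ 0 := by
    rw [Int.natAbs_ne_zero, Ne, Algebra.norm_eq_zero_iff]
    exact ha
  refine le_trans ?_ (Nat.le_of_dvd (Nat.pos_of_ne_zero h3) h2)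
  rw [← Finset.prod_const]
  exact Finset.prod_le_prod' fun v _ => absNorm_two v

/-- the size of the norm of a value -/
theorem norm_evs_le {r : ℕ} (c : Rp K r) : ∃ A : ℝ, 1 ≤ A ∧ ∀ (X : ℕ) (s : Fin r → ℕ), 1 ≤ X →
    (∀ i, s i ≤ X) → (((Algebra.norm ℤ (evs s c)).natAbs : ℕ) : ℝ) ≤
      (A * (X : ℝ) ^ c.totalDegree) ^ Module.finrank ℚ K := by
  classical
  -- the bound for one embedding
  have hone : ∀ σ : K →ₐ[ℚ] ℂ, ∃ A : ℝ, 1 ≤ A ∧ ∀ (X : ℕ) (s : Fin r → ℕ), 1 ≤ X →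
      (∀ i, s i ≤ X) → ‖σ ((evs s c : 𝓞 K) : K)‖ ≤ A * (X : ℝ) ^ c.totalDegree := by
    intro σ
    refine ⟨1 + ∑ m ∈ c.support, ‖σ ((c.coeff m : 𝓞 K) : K)‖, ?_, ?_⟩
    · have : 0 ≤ ∑ m ∈ c.support, ‖σ ((c.coeff m : 𝓞 K) : K)‖ :=
        Finset.sum_nonneg fun _ _ => norm_nonneg _
      linarith
    intro X s hX hs
    have hX1 : (1 : ℝ) ≤ X := by exact_mod_cast hX
    have h1 : ((evs s c : 𝓞 K) : K) = ∑ m ∈ c.support, ((c.coeff m : 𝓞 K) : K) *
        ∏ i, ((s i : ℕ) : K) ^ m i := by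
      unfold evs
      rw [MvPolynomial.eval_eq']
      simp
    rw [h1, map_sum]
    refine (norm_sum_le _ _).trans ?_
    have h2 : ∀ m ∈ c.support, ‖σ (((c.coeff m : 𝓞 K) : K) * ∏ i, ((s i : ℕ) : K) ^ m i)‖ ≤
        ‖σ ((c.coeff m : 𝓞 K) : K)‖ * (X : ℝ) ^ c.totalDegree := by
      intro m hm
      rw [map_mul, norm_mul]
      refine mul_le_mul_of_nonneg_left ?_ (norm_nonneg _)
      rw [map_prod, norm_prod]
      have h3 : ∀ i ∈ (univ : Finset (Fin r)), ‖σ (((s i : ℕ) : K) ^ m i)‖ ≤ (X : ℝ) ^ m i := by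
        intro i _
        rw [map_pow, norm_pow, map_natCast]
        refine pow_le_pow_left₀ (norm_nonneg _) ?_ _
        rw [Complex.norm_natCast]
        exact_mod_cast hs i
      refine (Finset.prod_le_prod (fun i _ => norm_nonneg _) h3).trans ?_
      rw [Finset.prod_pow_eq_pow_sum]
      refine pow_le_pow_right₀ hX1 ?_
      have h4 := MvPolynomial.le_totalDegree hm
      rwa [Finsupp.sum_fintype _ _ (fun _ => rfl)] at h4
    refine (Finset.sum_le_sum h2).trans ?_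
    rw [← Finset.sum_mul]
    refine mul_le_mul_of_nonneg_right ?_ (by positivity)
    linarith
  choose A hA1 hA using hone
  have hprod : ∀ T : Finset (K →ₐ[ℚ] ℂ), 1 ≤ ∏ σ ∈ T, A σ := by
    intro T
    have h := Finset.prod_le_prod (s := T) (f := fun _ => (1 : ℝ)) (g := A)
      (fun _ _ => zero_le_one) fun σ _ => hA1 σ
    rwa [Finset.prod_const_one] at h
  refine ⟨∏ σ : K →ₐ[ℚ] ℂ, A σ, hprod _, ?_⟩
  · intro X s hX hs
    have hX1 : (1 : ℝ) ≤ X := by exact_mod_cast hX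
    have h1 : (((Algebra.norm ℤ (evs s c)).natAbs : ℕ) : ℝ) =
        ‖∏ σ : K →ₐ[ℚ] ℂ, σ ((evs s c : 𝓞 K) : K)‖ := by
      rw [← Algebra.norm_eq_prod_embeddings ℚ ℂ ((evs s c : 𝓞 K) : K)]
      rw [← Algebra.coe_norm_int]
      simp only [eq_ratCast, Rat.cast_intCast, Complex.norm_intCast]
      rw [Nat.cast_natAbs, Int.cast_abs]
    rw [h1, norm_prod]
    have h2 : ∀ σ ∈ (univ : Finset (K →ₐ[ℚ] ℂ)), ‖σ ((evs s c : 𝓞 K) : K)‖ ≤
        (∏ σ : K →ₐ[ℚ] ℂ, A σ) * (X : ℝ) ^ c.totalDegree := by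
      intro σ _
      refine (hA σ X s hX hs).trans ?_
      refine mul_le_mul_of_nonneg_right ?_ (by positivity)
      rw [← Finset.mul_prod_erase univ A (mem_univ σ)]
      have h3 := hprod (univ.erase σ)
      have h4 : 0 ≤ A σ := le_trans zero_le_one (hA1 σ)
      nlinarith
    refine (Finset.prod_le_prod (fun _ _ => norm_nonneg _) h2).trans ?_
    rw [Finset.prod_const, Finset.card_univ, AlgHom.card]

end

end Pool.Agent.Helper15.BX
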