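import Pool.Agent.Helper15.BX.MostA
import Pool.Graph.R_pool_sql_team_seeded_3997aac3.Q267.AP.LS
import Pool.Graph.R_pool_sql_team_seeded_3997aac3.Q267.DC.Sup

/-!
# Scales, Schwartz-Zippel in a box for `X_Most`
-/

set_option autoImplicit false

open Finset NumberField IsDedekindDomain

namespace Pool.Agent.Helper15.BX

open Pool.Agent.Helper62.BX
open Pool.Agent.Q267.OD (allP)
open Pool.Agent.Q267.AP

section

variable {K : Type} [Field K] [NumberField K]

lemma mem_sc (Q₀ Q₁ j : ℕ) : j ∈ scales Q₀ Q₁ ↔ Q₀ ≤ 2 ^ j ∧ 2 ^ j ≤ Q₁ := by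
  unfold scales
  rw [mem_filter, mem_range]
  refine ⟨fun h => h.2, fun h => ⟨?_, h⟩⟩
  have : j < 2 ^ j := Nat.lt_two_pow_self
  omega

open Classical in
lemma card_sc_filter (Q₀ Q₁ : ℕ) (R : ℕ → Prop) :
    Nat.card {j : ℕ // (Q₀ ≤ 2 ^ j ∧ 2 ^ j ≤ Q₁) ∧ R j} =
      ((scales Q₀ Q₁).filter fun j => R j).card := by
  have h4 : {j : ℕ | (Q₀ ≤ 2 ^ j ∧ 2 ^ j ≤ Q₁) ∧ R j}.Finite :=
    (Finset.finite_toSet (scales Q₀ Q₁)).subset fun j hj =>
      mem_coe.mpr ((mem_sc Q₀ Q₁ j).mpr hj.1)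
  have h5 : Nat.card {j : ℕ // (Q₀ ≤ 2 ^ j ∧ 2 ^ j ≤ Q₁) ∧ R j} = h4.toFinset.card :=
    Set.ncard_eq_toFinset_card _ h4
  rw [h5]
  congr 1
  ext j
  rw [Set.Finite.mem_toFinset, Finset.mem_filter, mem_sc]
  rfl

lemma card_sc (Q₀ Q₁ : ℕ) :
    Nat.card {j : ℕ // Q₀ ≤ 2 ^ j ∧ 2 ^ j ≤ Q₁} = (scales Q₀ Q₁).card := by
  have h4 : {j : ℕ | Q₀ ≤ 2 ^ j ∧ 2 ^ j ≤ Q₁}.Finite :=
    (Finset.finite_toSet (scales Q₀ Q₁)).subset fun j hj =>
      mem_coe.mpr ((mem_sc Q₀ Q₁ j).mpr hj)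
  have h5 : Nat.card {j : ℕ // Q₀ ≤ 2 ^ j ∧ 2 ^ j ≤ Q₁} = h4.toFinset.card :=
    Set.ncard_eq_toFinset_card _ h4
  rw [h5]
  congr 1
  ext j
  rw [Set.Finite.mem_toFinset, mem_sc]
  rfl

/-- the places of norm at most `N` -/
noncomputable def Pl (K : Type) [Field K] [NumberField K] (N : ℕ) :
    Finset (HeightOneSpectrum (𝓞 K)) :=
  (Pool.Agent.W352.ChAbs.finite_le (K := K) N).toFinset

theorem mem_Pl (N : ℕ) (v : HeightOneSpectrum (𝓞 K)) :
    v ∈ Pl K N ↔ Ideal.absNorm v.asIdeal ≤ N := by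
  unfold Pl
  rw [Set.Finite.mem_toFinset]
  rfl

open Classical in
lemma card_Pl_filter (P : HeightOneSpectrum (𝓞 K) → Prop) (N : ℕ) :
    Nat.card {v : HeightOneSpectrum (𝓞 K) // Ideal.absNorm v.asIdeal ≤ N ∧ P v} =
      ((Pl K N).filter fun v => P v).card := by
  have h4 : {v : HeightOneSpectrum (𝓞 K) | Ideal.absNorm v.asIdeal ≤ N ∧ P v}.Finite :=
    (Pool.Agent.W352.ChAbs.finite_le (K := K) N).subset fun v hv => hv.1
  have h5 : Nat.card {v : HeightOneSpectrum (𝓞 K) // Ideal.absNorm v.asIdeal ≤ N ∧ P v} =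
      h4.toFinset.card := Set.ncard_eq_toFinset_card _ h4
  rw [h5]
  congr 1
  ext v
  rw [Set.Finite.mem_toFinset, Finset.mem_filter, mem_Pl]
  rfl

lemma card_Pl (N : ℕ) :
    Nat.card {v : HeightOneSpectrum (𝓞 K) // Ideal.absNorm v.asIdeal ≤ N} = (Pl K N).card := by
  have h5 : Nat.card {v : HeightOneSpectrum (𝓞 K) // Ideal.absNorm v.asIdeal ≤ N} =
      (Pool.Agent.W352.ChAbs.finite_le (K := K) N).toFinset.card :=
    Set.ncard_eq_toFinset_card _ _
  rw [h5]
  rfl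

/-- many places -/
theorem many (K : Type) [Field K] [NumberField K] : ∃ j₀ : ℕ, ∀ j, j₀ ≤ j →
    2 ^ (j / 2) ≤ (Pl K (2 ^ j)).card := by
  have h1 := (Pool.Agent.Q267.DC.all_tendsto K).eventually
    (lt_mem_nhds (show (1 / 2 : ℝ) < 1 by norm_num))
  obtain ⟨N₀, hN₀⟩ := Filter.eventually_atTop.1 h1
  refine ⟨N₀ + 8, fun j hj => ?_⟩
  have h2 := hN₀ (2 ^ j) (by
    have : j < 2 ^ j := Nat.lt_two_pow_self
    omega)
  have h3 : allP K (2 ^ j) = (Pl K (2 ^ j)).card := card_Pl _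
  rw [h3] at h2
  have hpos : (0 : ℝ) < ((2 ^ j : ℕ) : ℝ) := by positivity
  rw [lt_div_iff₀ hpos] at h2
  push_cast at h2
  rw [Real.log_pow] at h2
  have hlog : Real.log 2 ≤ 1 := by
    have := Real.log_two_lt_d9
    linarith
  have hlog0 : 0 < Real.log 2 := Real.log_pos (by norm_num)
  -- `2 j ≤ 2 ^ (j - j / 2)`
  have h4 : ∀ m : ℕ, 4 ≤ m → 4 * m ≤ 2 ^ m := by
    intro m hm
    induction m, hm using Nat.le_induction with
    | base => norm_num
    | succ m hm ih =>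
      rw [pow_succ]
      omega
  have h5 : 2 * j ≤ 2 ^ (j - j / 2) := by
    have h6 := h4 (j - j / 2) (by omega)
    omega
  have h7 : (2 : ℝ) ^ j = 2 ^ (j / 2) * 2 ^ (j - j / 2) := by
    rw [← pow_add]
    congr 1
    omega
  have h8 : (2 * j : ℝ) ≤ 2 ^ (j - j / 2) := by exact_mod_cast h5
  have hj0 : (0 : ℝ) < j := by
    have : 0 < j := by omega
    exact_mod_cast this
  have h9 : ((2 : ℝ) ^ (j / 2)) ≤ (Pl K (2 ^ j)).card := by
    have h10 : (0 : ℝ) ≤ (Pl K (2 ^ j)).card := by positivity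
    have h11 : ((Pl K (2 ^ j)).card : ℝ) * (j * Real.log 2) ≤ (Pl K (2 ^ j)).card * j := by
      refine mul_le_mul_of_nonneg_left ?_ h10
      nlinarith
    have h12 : (2 : ℝ) ^ (j / 2) * (2 * j) ≤ 2 ^ j := by
      rw [h7]
      exact mul_le_mul_of_nonneg_left h8 (by positivity)
    have h13 : (2 : ℝ) ^ (j / 2) * j ≤ (Pl K (2 ^ j)).card * j := by nlinarith
    exact le_of_mul_le_mul_right h13 hj0
  exact_mod_cast h9

/-- Schwartz-Zippel in a box -/
theorem sz {r : ℕ} (c : Rp K r) (hc : c ≠ 0) (X : ℕ) :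
    open Classical in
    ((Fintype.piFinset fun _ : Fin r => Finset.Icc 1 X).filter fun s => evs s c = 0).card * X ≤
      c.totalDegree * X ^ r := by
  classical
  rcases Nat.eq_zero_or_pos X with hX | hX
  · rw [hX, mul_zero]
    exact Nat.zero_le _
  let S : Finset (𝓞 K) := (Finset.Icc 1 X).image Nat.cast
  have hinj : Function.Injective (Nat.cast : ℕ → 𝓞 K) := Nat.cast_injective
  have hS : S.card = X := by
    rw [Finset.card_image_of_injective _ hinj, Nat.card_Icc]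
    omega
  have hsz := MvPolynomial.schwartz_zippel_totalDegree hc S
  have hmap : ((Fintype.piFinset fun _ : Fin r => Finset.Icc 1 X).filter
      fun s => evs s c = 0).card ≤
      ((Fintype.piFinset fun _ : Fin r => S).filter fun f => MvPolynomial.eval f c = 0).card := by
    refine Finset.card_le_card_of_injOn (fun s i => ((s i : ℕ) : 𝓞 K)) ?_ ?_
    · intro s hs
      obtain ⟨h1, h2⟩ := Finset.mem_filter.1 (Finset.mem_coe.1 hs)
      refine Finset.mem_coe.2 (Finset.mem_filter.2 ⟨?_, h2⟩)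
      rw [Fintype.mem_piFinset] at h1 ⊢
      exact fun i => Finset.mem_image_of_mem _ (h1 i)
    · intro s _ s' _ h
      funext i
      exact hinj (congrFun h i)
  rw [hS] at hsz
  have hpq : (0 : ℚ≥0) < X := by exact_mod_cast hX
  rw [div_le_div_iff₀ (pow_pos hpq r) hpq] at hsz
  have hsz' : ((Fintype.piFinset fun _ : Fin r => S).filter
      fun f => MvPolynomial.eval f c = 0).card * X ≤ c.totalDegree * X ^ r := by
    exact_mod_cast hsz
  exact (Nat.mul_le_mul_right _ hmap).trans hsz'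

/-- the scales at which there are few places -/
theorem few_scales (j₀ : ℕ) (V : ℕ → ℕ) (hV : ∀ j, j₀ ≤ j → 2 ^ (j / 2) ≤ V j) (Q₀ Q₁ : ℕ)
    {L : ℝ} (hL : 1 ≤ L) :
    open Classical in
    (((scales Q₀ Q₁).filter fun j => (V j : ℝ) < L).card : ℝ) ≤
      j₀ + 2 * (Real.log L / Real.log 2) + 2 := by
  classical
  have hlog0 : 0 < Real.log 2 := Real.log_pos (by norm_num)
  set b : ℝ := 2 * (Real.log L / Real.log 2) + 1 with hb
  have hb0 : 0 ≤ b := by
    have := Real.log_nonneg hL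
    positivity
  have hsub : ((scales Q₀ Q₁).filter fun j => (V j : ℝ) < L) ⊆
      Finset.range j₀ ∪ Finset.range (⌊b⌋₊ + 1) := by
    intro j hj
    rw [Finset.mem_filter] at hj
    rw [Finset.mem_union, Finset.mem_range, Finset.mem_range]
    by_cases h : j < j₀
    · exact Or.inl h
    right
    push Not at h
    have h1 : ((2 ^ (j / 2) : ℕ) : ℝ) < L := lt_of_le_of_lt (by exact_mod_cast hV j h) hj.2
    push_cast at h1
    have h2 : ((j / 2 : ℕ) : ℝ) * Real.log 2 < Real.log L := by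
      rw [← Real.log_pow]
      exact Real.log_lt_log (by positivity) h1
    have h3 : ((j / 2 : ℕ) : ℝ) < Real.log L / Real.log 2 := by
      rwa [lt_div_iff₀ hlog0]
    have h4 : (j : ℝ) ≤ 2 * ((j / 2 : ℕ) : ℝ) + 1 := by
      have : j ≤ 2 * (j / 2) + 1 := by omega
      exact_mod_cast this
    have h5 : (j : ℝ) ≤ b := by linarith
    exact Nat.lt_succ_of_le (Nat.le_floor h5)
  have h6 := (Finset.card_le_card hsub).trans (Finset.card_union_le _ _)
  rw [Finset.card_range, Finset.card_range] at h6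
  have h7 : (((scales Q₀ Q₁).filter fun j => (V j : ℝ) < L).card : ℝ) ≤
      ((j₀ + (⌊b⌋₊ + 1) : ℕ) : ℝ) := by exact_mod_cast h6
  have h8 := Nat.floor_le hb0
  push_cast at h7
  linarith

/-- the analytic comparison -/
theorem compare {a δ j₀ A B : ℝ} (ha : 0 < a) (hδ : 0 < δ) (hA : 0 < A) (hB : 0 ≤ B) :
    ∃ X₀ : ℕ, ∀ X : ℕ, X₀ ≤ X → 1 ≤ X → 1 ≤ A + B * Real.log X →
      j₀ + 2 * (Real.log (A + B * Real.log X) / Real.log 2) + 2 ≤
        a * (δ * Real.log X / Real.log 2 - 1) := by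
  have hlog0 : 0 < Real.log 2 := Real.log_pos (by norm_num)
  -- `log z ≤ κ z - 1 - log κ`
  set κ : ℝ := a * δ / (4 * (B + 1)) with hκ
  have hκ0 : 0 < κ := by positivity
  set M : ℝ := (j₀ + 2 + a + 2 * (κ * A - 1 - Real.log κ) / Real.log 2) with hM
  obtain ⟨X₀, hX₀⟩ := exists_nat_ge (Real.exp (M * Real.log 2 * 2 / (a * δ)))
  refine ⟨X₀, fun X hX h1 h2 => ?_⟩
  set y : ℝ := Real.log X with hy
  have hXr : (0 : ℝ) < X := by exact_mod_cast h1
  have hyM : M * Real.log 2 * 2 / (a * δ) ≤ y := by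
    rw [hy, Real.le_log_iff_exp_le hXr]
    refine hX₀.trans (by exact_mod_cast hX)
  have hy0 : 0 ≤ y := Real.log_natCast_nonneg _
  set z : ℝ := A + B * y with hz
  have hz0 : 0 < z := by positivity
  have h3 : Real.log z ≤ κ * z - 1 - Real.log κ := by
    have h4 := Real.log_le_sub_one_of_pos (mul_pos hκ0 hz0)
    rw [Real.log_mul hκ0.ne' hz0.ne'] at h4
    linarith
  have h5 : κ * (B * y) ≤ a * δ / 4 * y := by
    have h6 : κ * B ≤ a * δ / 4 := by
      rw [hκ, div_mul_eq_mul_div, div_le_div_iff₀ (by positivity) (by norm_num)]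
      have : 0 ≤ a * δ := by positivity
      nlinarith
    nlinarith
  have h7 : M * Real.log 2 ≤ a * δ / 2 * y := by
    rw [div_le_iff₀ (by positivity)] at hyM
    linarith
  have h8 : M * Real.log 2 = (j₀ + 2 + a) * Real.log 2 + 2 * (κ * A - 1 - Real.log κ) := by
    rw [hM]
    field_simp
  have h9 : (j₀ + 2 + a) * Real.log 2 + 2 * Real.log z ≤ a * δ * y := by
    have h10 : κ * z = κ * A + κ * (B * y) := by rw [hz]; ring
    nlinarith
  have h11 : j₀ + 2 * (Real.log z / Real.log 2) + 2 + a ≤ a * (δ * y / Real.log 2) := by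
    have h12 : (j₀ + 2 + a) * Real.log 2 + 2 * Real.log z =
        (j₀ + 2 * (Real.log z / Real.log 2) + 2 + a) * Real.log 2 := by
      field_simp
      ring
    have h13 : a * δ * y = a * (δ * y / Real.log 2) * Real.log 2 := by
      field_simp
    rw [h12, h13] at h9
    exact le_of_mul_le_mul_right h9 hlog0
  linarith

end

end Pool.Agent.Helper15.BX
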