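import Pool.Agent.Helper15.BX.MostB

/-!
# Most scales, with few exceptions, in several parameters (package X_Most)
-/

set_option autoImplicit false

open Finset NumberField IsDedekindDomain

namespace Pool.Agent.Helper15.BX

open Pool.Agent.Helper62.BX
open Pool.Agent.Q267.AP

section

variable {K : Type} [Field K] [NumberField K]

open Classical in
/-- the counting at the places -/
theorem places_count (Gd Bd Dv : HeightOneSpectrum (𝓞 K) → Prop)
    (h : ∀ v, ¬ Gd v → Bd v ∨ Dv v) (N : ℕ) :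
    (Pl K N).card ≤ ((Pl K N).filter fun v => Gd v).card +
      (((Pl K N).filter fun v => Bd v).card + ((Pl K N).filter fun v => Dv v).card) := by
  rw [← Finset.card_filter_add_card_filter_not (s := Pl K N) (fun v => Gd v)]
  refine Nat.add_le_add_left ?_ _
  refine le_trans (Finset.card_le_card ?_) (Finset.card_union_le _ _)
  intro v hv
  rw [Finset.mem_filter] at hv
  rw [Finset.mem_union, Finset.mem_filter, Finset.mem_filter]
  rcases h v hv.2 with h1 | h1
  · exact Or.inl ⟨hv.1, h1⟩
  · exact Or.inr ⟨hv.1, h1⟩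

open Classical in
/-- the step at the places -/
theorem place_step (Gd Bd Dv : HeightOneSpectrum (𝓞 K) → Prop)
    (h : ∀ v, ¬ Gd v → Bd v ∨ Dv v) (N : ℕ) (η L : ℝ)
    (hL : (((Pl K N).filter fun v => Dv v).card : ℝ) ≤ L)
    (hL2 : L < η / 2 * (Pl K N).card)
    (h1 : (((Pl K N).filter fun v => Gd v).card : ℝ) < (1 - η) * (Pl K N).card) :
    η / 2 * (Pl K N).card < ((Pl K N).filter fun v => Bd v).card := by
  have h3 := places_count Gd Bd Dv h N
  have h4 : ((Pl K N).card : ℝ) ≤ ((Pl K N).filter fun v => Gd v).card +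
      (((Pl K N).filter fun v => Bd v).card +
        ((Pl K N).filter fun v => Dv v).card) := by exact_mod_cast h3
  linarith

open Classical in
/-- the counting at the scales -/
theorem scales_count (S : Finset ℕ) (P1 P2 P3 : ℕ → Prop) (h : ∀ j ∈ S, P1 j ∨ P2 j ∨ P3 j)
    (η : ℝ) (h1 : ((S.filter fun j => P1 j).card : ℝ) < (1 - η) * S.card)
    (h3 : ((S.filter fun j => P3 j).card : ℝ) ≤ η / 2 * S.card) :
    η / 2 * S.card ≤ (S.filter fun j => P2 j).card := by
  have h4 : S.card ≤ (S.filter fun j => P1 j).card +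
      ((S.filter fun j => P2 j).card + (S.filter fun j => P3 j).card) := by
    have h5 : S ⊆ (S.filter fun j => P1 j) ∪ ((S.filter fun j => P2 j) ∪
        (S.filter fun j => P3 j)) := by
      intro j hj
      rw [Finset.mem_union, Finset.mem_union, Finset.mem_filter, Finset.mem_filter,
        Finset.mem_filter]
      rcases h j hj with h6 | h6 | h6
      · exact Or.inl ⟨hj, h6⟩
      · exact Or.inr (Or.inl ⟨hj, h6⟩)
      · exact Or.inr (Or.inr ⟨hj, h6⟩)
    refine (Finset.card_le_card h5).trans ((Finset.card_union_le _ _).trans ?_)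
    exact Nat.add_le_add_left (Finset.card_union_le _ _) _
  have h5 : (S.card : ℝ) ≤ (S.filter fun j => P1 j).card +
      ((S.filter fun j => P2 j).card + (S.filter fun j => P3 j).card) := by exact_mod_cast h4
  linarith

open Classical in
/-- the number of exceptions in a box -/
theorem box_count {r : ℕ} (X : ℕ) (U : Finset (Fin (r + 1) → ℕ)) (c : Rp K r) (hc : c ≠ 0)
    (hU : ∀ u ∈ U, ∀ i, 1 ≤ u i ∧ u i ≤ X) (b : ℝ) (hb : 0 ≤ b)
    (h : ∀ s : Fin r → ℕ, (∀ i, 1 ≤ s i ∧ s i ≤ X) → evs s c ≠ 0 →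
      (({t : ℕ | ∃ u ∈ U, (fun i => u i.castSucc) = s ∧ u (Fin.last r) = t}).ncard : ℝ) ≤ b) :
    (U.card : ℝ) ≤ b * (X : ℝ) ^ r + c.totalDegree * (X : ℝ) ^ r := by
  set Bx : Finset (Fin r → ℕ) := Fintype.piFinset fun _ : Fin r => Finset.Icc 1 X with hBx
  set in' : (Fin (r + 1) → ℕ) → (Fin r → ℕ) := fun u i => u i.castSucc with hin
  have hmaps : ∀ u ∈ U, in' u ∈ Bx := by
    intro u hu
    rw [hBx, Fintype.mem_piFinset]
    intro i
    rw [Finset.mem_Icc]
    exact hU u hu _
  have h1 := Finset.card_eq_sum_card_fiberwise (f := in') (s := U) (t := Bx)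
    (fun u hu => Finset.mem_coe.2 (hmaps u (Finset.mem_coe.1 hu)))
  have hfib : ∀ s ∈ Bx, ((U.filter fun u => in' u = s).card : ℝ) ≤
      b + if evs s c = 0 then (X : ℝ) else 0 := by
    intro s hs
    have hs' : ∀ i, 1 ≤ s i ∧ s i ≤ X := by
      intro i
      rw [hBx, Fintype.mem_piFinset] at hs
      exact Finset.mem_Icc.1 (hs i)
    have hinj : Set.InjOn (fun u : Fin (r + 1) → ℕ => u (Fin.last r))
        (U.filter fun u => in' u = s) := by
      intro u hu u' hu' he
      have e1 := (Finset.mem_filter.1 (Finset.mem_coe.1 hu)).2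
      have e2 := (Finset.mem_filter.1 (Finset.mem_coe.1 hu')).2
      funext i
      refine Fin.lastCases ?_ (fun i => ?_) i
      · exact he
      · have := congrFun (e1.trans e2.symm) i
        exact this
    by_cases hcs : evs s c = 0
    · rw [if_pos hcs]
      have h2 : (U.filter fun u => in' u = s).card ≤ (Finset.Icc 1 X).card := by
        refine Finset.card_le_card_of_injOn (fun u => u (Fin.last r)) ?_ hinj
        intro u hu
        have h3 := (Finset.mem_filter.1 (Finset.mem_coe.1 hu)).1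
        exact Finset.mem_coe.2 (Finset.mem_Icc.2 (hU u h3 _))
      rw [Nat.card_Icc, Nat.add_sub_cancel] at h2
      have h3 : ((U.filter fun u => in' u = s).card : ℝ) ≤ X := by exact_mod_cast h2
      linarith
    · rw [if_neg hcs, add_zero]
      refine le_trans (le_of_eq ?_) (h s hs' hcs)
      rw [← Finset.card_image_of_injOn hinj, ← Set.ncard_coe_finset]
      congr 2
      ext t
      simp only [Finset.coe_image, Set.mem_image, Finset.mem_coe, Finset.mem_filter,
        Set.mem_ofPred_eq]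
      constructor
      · rintro ⟨u, ⟨hu1, hu2⟩, hu3⟩
        exact ⟨u, hu1, hu2, hu3⟩
      · rintro ⟨u, hu1, hu2, hu3⟩
        exact ⟨u, ⟨hu1, hu2⟩, hu3⟩
  have h2 : (U.card : ℝ) = ∑ s ∈ Bx, ((U.filter fun u => in' u = s).card : ℝ) := by
    rw [h1]
    push_cast
    rfl
  rw [h2]
  refine (Finset.sum_le_sum hfib).trans ?_
  rw [Finset.sum_add_distrib, Finset.sum_const, nsmul_eq_mul]
  have h3 : (Bx.card : ℝ) = (X : ℝ) ^ r := by
    rw [hBx, Fintype.card_piFinset]
    simp
  rw [h3, ← Finset.sum_filter, Finset.sum_const, nsmul_eq_mul]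
  have h4 := sz c hc X
  have h5 : (((Bx.filter fun s => evs s c = 0).card : ℝ)) * X ≤ c.totalDegree * (X : ℝ) ^ r := by
    exact_mod_cast h4
  linarith

end

open Classical in
theorem x_most (hLS : X_LS) : X_Most := by
  intro K _ _ r Good hPer hFew η δ hη hδ
  obtain ⟨ε, hε, hLS1⟩ := hLS K (η / 2) δ (by positivity) hδ
  obtain ⟨c, hc0, hfin⟩ := hFew ε hε
  obtain ⟨C, hC, hLS2⟩ := hLS1 hfin.toFinset
  obtain ⟨j₀, hj₀⟩ := many K
  obtain ⟨A, hA1, hA⟩ := norm_evs_le c
  have hlog0 : 0 < Real.log 2 := Real.log_pos (by norm_num)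
  set nK := Module.finrank ℚ K with hnK
  -- the bound for the number of places dividing `c(s)`
  set A' : ℝ := 2 / η * (1 + nK * Real.log A / Real.log 2) + 1 with hA'
  set B' : ℝ := 2 / η * (nK * c.totalDegree / Real.log 2) with hB'
  have hA'0 : 0 < A' := by
    have := Real.log_nonneg hA1
    positivity
  have hB'0 : 0 ≤ B' := by positivity
  obtain ⟨X₀, hX₀⟩ := compare (a := η / 2) (j₀ := (j₀ : ℝ)) (by positivity) hδ hA'0 hB'0
  refine ⟨C + c.totalDegree + X₀, fun X Q₀ Q₁ h1 h2 => ?_⟩
  -- the exceptional set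
  set U : Set (Fin (r + 1) → ℕ) := {u : Fin (r + 1) → ℕ | (∀ i, 1 ≤ u i ∧ u i ≤ X) ∧
        (Nat.card {j : ℕ // (Q₀ ≤ 2 ^ j ∧ 2 ^ j ≤ Q₁) ∧
          (1 - η) * Nat.card {v : HeightOneSpectrum (𝓞 K) // Ideal.absNorm v.asIdeal ≤ 2 ^ j} ≤
          (Nat.card {v : HeightOneSpectrum (𝓞 K) // Ideal.absNorm v.asIdeal ≤ 2 ^ j ∧
            Good v (fun i => u i.castSucc) (u (Fin.last r))} : ℝ)} : ℝ) <
        (1 - η) * Nat.card {j : ℕ // Q₀ ≤ 2 ^ j ∧ 2 ^ j ≤ Q₁}} with hU
  have hUsub : U ⊆ ↑(Fintype.piFinset fun _ : Fin (r + 1) => Finset.Icc 1 X) := by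
    intro u hu
    rw [Finset.mem_coe, Fintype.mem_piFinset]
    intro i
    exact Finset.mem_Icc.2 (hu.1 i)
  have hUfin : U.Finite := (Finset.finite_toSet _).subset hUsub
  rw [Set.ncard_eq_toFinset_card _ hUfin]
  have hUm : ∀ u ∈ hUfin.toFinset, ∀ i, 1 ≤ u i ∧ u i ≤ X := fun u hu =>
    ((Set.Finite.mem_toFinset hUfin).1 hu).1
  rcases Nat.eq_zero_or_pos X with hX0 | hXpos
  · have : hUfin.toFinset = ∅ := by
      rw [Finset.eq_empty_iff_forall_notMem]
      intro u hu
      have := hUm u hu (Fin.last r)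
      omega
    rw [this, Finset.card_empty, Nat.cast_zero]
    positivity
  have hX1 : (1 : ℝ) ≤ X := by exact_mod_cast hXpos
  have hQ₁ : (1 : ℝ) ≤ Q₁ := by
    have h3 : (1 : ℝ) ≤ (X : ℝ) ^ δ := Real.one_le_rpow hX1 hδ.le
    have h4 : (1 : ℝ) ≤ Q₀ := by exact_mod_cast h1
    nlinarith
  have hXr : (0 : ℝ) ≤ (X : ℝ) ^ r := by positivity
  by_cases hXX : X₀ ≤ X
  swap
  · -- small `X`
    push Not at hXX
    have h3 : hUfin.toFinset.card ≤ X ^ (r + 1) := by
      have h4 : hUfin.toFinset ⊆ Fintype.piFinset fun _ : Fin (r + 1) => Finset.Icc 1 X := by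
        intro u hu
        exact Finset.mem_coe.1 (hUsub ((Set.Finite.mem_toFinset hUfin).1 hu))
      have h5 := Finset.card_le_card h4
      rwa [Fintype.card_piFinset, Finset.prod_const, Nat.card_Icc, Nat.add_sub_cancel,
        Finset.card_univ, Fintype.card_fin] at h5
    have h4 : (hUfin.toFinset.card : ℝ) ≤ (X : ℝ) ^ r * X := by
      rw [← pow_succ]
      exact_mod_cast h3
    have h5 : (X : ℝ) ≤ X₀ := by exact_mod_cast hXX.le
    have h6 : (X : ℝ) ^ r * X ≤ X₀ * ((X : ℝ) ^ r * Q₁) := by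
      have h7 : (X : ℝ) ^ r * X ≤ (X : ℝ) ^ r * (X₀ * Q₁) := by
        refine mul_le_mul_of_nonneg_left ?_ hXr
        have h8 : (0 : ℝ) ≤ X₀ := by positivity
        nlinarith
      linarith
    have h9 : 0 ≤ (C + c.totalDegree) * ((X : ℝ) ^ r * Q₁) := by positivity
    nlinarith
  -- large `X`
  have hmain : ∀ s : Fin r → ℕ, (∀ i, 1 ≤ s i ∧ s i ≤ X) → evs s c ≠ 0 →
      (({t : ℕ | ∃ u ∈ hUfin.toFinset, (fun i => u i.castSucc) = s ∧ u (Fin.last r) = t}).ncard : ℝ)
        ≤ C * Q₁ := by
    intro s hs hcs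
    set Bd : ℕ → HeightOneSpectrum (𝓞 K) → Prop :=
      fun t v => ¬ Good v s t ∧ evs s c ∉ v.asIdeal with hBd
    refine hLS2 Bd ?_ ?_ X Q₀ Q₁ h1 h2 _ ?_
    · intro t v hv
      have e1 := hPer v hv s t
      have e2 := hPer v hv s (t % Ideal.absNorm v.asIdeal)
      rw [Nat.mod_mod] at e2
      have e3 : Good v s t ↔ Good v s (t % Ideal.absNorm v.asIdeal) := e1.trans e2.symm
      simp only [hBd, e3]
    · intro v hv hvE
      by_cases hcv : evs s c ∈ v.asIdeal
      · have : {t : ℕ | t < Ideal.absNorm v.asIdeal ∧ Bd t v} = ∅ := by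
          rw [Set.eq_empty_iff_forall_notMem]
          rintro t ⟨-, -, h3⟩
          exact h3 hcv
        rw [this, Set.ncard_empty, Nat.cast_zero]
        positivity
      · rw [Set.Finite.mem_toFinset] at hvE
        have h3 : ¬ (ε * Ideal.absNorm v.asIdeal < (((range (Ideal.absNorm v.asIdeal)).filter
            fun t : ℕ => ¬ Good v s t).card : ℝ)) := by
          intro h4
          exact hvE ⟨hv, trivial, s, hcv, h4⟩
        refine le_trans ?_ (not_lt.1 h3)
        have h4 : {t : ℕ | t < Ideal.absNorm v.asIdeal ∧ Bd t v} ⊆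
            ↑((range (Ideal.absNorm v.asIdeal)).filter fun t : ℕ => ¬ Good v s t) := by
          rintro t ⟨h5, h6, -⟩
          rw [Finset.mem_coe, Finset.mem_filter, Finset.mem_range]
          exact ⟨h5, h6⟩
        have h5 := Set.ncard_le_ncard h4 (Finset.finite_toSet _)
        rw [Set.ncard_coe_finset] at h5
        exact_mod_cast h5
    · rintro t ⟨u, hu, hus, hut⟩
      have hu' := (Set.Finite.mem_toFinset hUfin).1 hu
      obtain ⟨hu1, hu2⟩ := hu'
      have hut1 := hu1 (Fin.last r)
      rw [hut] at hut1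
      refine ⟨hut1.1, hut1.2, ?_⟩
      rw [hus, hut] at hu2
      rw [card_sc, card_sc_filter]
      rw [card_sc, card_sc_filter] at hu2
      -- the number of places dividing `c(s)`
      set Lr : ℝ := (nK * Real.log A + nK * c.totalDegree * Real.log X) / Real.log 2 with hLr
      have hdiv : ∀ N : ℕ, (((Pl K N).filter fun v => evs s c ∈ v.asIdeal).card : ℝ) ≤ Lr := by
        intro N
        have h3 := pow_card_le (evs s c) hcs ((Pl K N).filter fun v => evs s c ∈ v.asIdeal)
          fun v hv => (Finset.mem_filter.1 hv).2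
        have h4 := hA X s hXpos fun i => (hs i).2
        have h5 : (2 : ℝ) ^ ((Pl K N).filter fun v => evs s c ∈ v.asIdeal).card ≤
            (A * (X : ℝ) ^ c.totalDegree) ^ nK := by
          refine le_trans ?_ h4
          exact_mod_cast h3
        have h6 := Real.log_le_log (by positivity) h5
        have hA0 : (0 : ℝ) < A := lt_of_lt_of_le one_pos hA1
        have hX0' : (0 : ℝ) < X := lt_of_lt_of_le one_pos hX1
        rw [Real.log_pow, Real.log_pow, Real.log_mul hA0.ne' (pow_pos hX0' _).ne',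
          Real.log_pow] at h6
        rw [hLr, le_div_iff₀ hlog0]
        refine h6.trans (le_of_eq ?_)
        ring
      have hlogA := Real.log_nonneg hA1
      have hlogX := Real.log_nonneg hX1
      have hLr0 : 0 ≤ Lr := by positivity
      -- the threshold
      have hTh : A' + B' * Real.log X = 2 / η * (1 + Lr) + 1 := by
        rw [hA', hB', hLr]
        field_simp
        ring
      have hTh1 : 1 ≤ A' + B' * Real.log X := by
        rw [hTh]
        have : 0 ≤ 2 / η * (1 + Lr) := by positivity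
        linarith
      have hcmp := hX₀ X hXX hXpos hTh1
      have hfs := few_scales j₀ (fun j => (Pl K (2 ^ j)).card) hj₀ Q₀ Q₁ hTh1
      have hsc := scales_card Q₀ Q₁ h1 (by
        have h3 : (Q₀ : ℝ) ≤ Q₁ := by
          have h4 : (1 : ℝ) ≤ (X : ℝ) ^ δ := Real.one_le_rpow hX1 hδ.le
          have h5 : (0 : ℝ) ≤ Q₀ := by positivity
          nlinarith
        exact_mod_cast h3)
      have hsc2 : δ * Real.log X / Real.log 2 - 1 ≤ (scales Q₀ Q₁).card := by
        refine le_trans ?_ hsc
        have h3 : δ * Real.log X + Real.log Q₀ ≤ Real.log Q₁ := by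
          have hX0' : (0 : ℝ) < X := lt_of_lt_of_le one_pos hX1
          have hQ0' : (0 : ℝ) < Q₀ := by exact_mod_cast h1
          have h4 := Real.log_le_log (by positivity) h2
          rwa [Real.log_mul (Real.rpow_pos_of_pos hX0' _).ne' hQ0'.ne', Real.log_rpow hX0'] at h4
        have h4 : δ * Real.log X / Real.log 2 ≤ (Real.log Q₁ - Real.log Q₀) / Real.log 2 := by
          apply div_le_div_of_nonneg_right _ hlog0.le
          linarith
        linarith
      refine scales_count (scales Q₀ Q₁)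
        (fun j => (1 - η) * (Nat.card {v : HeightOneSpectrum (𝓞 K) //
          Ideal.absNorm v.asIdeal ≤ 2 ^ j} : ℝ) ≤
          (Nat.card {v : HeightOneSpectrum (𝓞 K) // Ideal.absNorm v.asIdeal ≤ 2 ^ j ∧
            Good v s t} : ℝ)) _
        (fun j => ((fun j => (Pl K (2 ^ j)).card) j : ℝ) < A' + B' * Real.log X) ?_ η hu2 ?_
      · intro j _
        by_cases hj1 : (1 - η) * (Nat.card {v : HeightOneSpectrum (𝓞 K) //
          Ideal.absNorm v.asIdeal ≤ 2 ^ j} : ℝ) ≤
          (Nat.card {v : HeightOneSpectrum (𝓞 K) // Ideal.absNorm v.asIdeal ≤ 2 ^ j ∧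
            Good v s t} : ℝ)
        · exact Or.inl hj1
        right
        by_cases hj3 : ((Pl K (2 ^ j)).card : ℝ) < A' + B' * Real.log X
        · exact Or.inr hj3
        left
        rw [card_Pl, card_Pl_filter]
        rw [card_Pl, card_Pl_filter] at hj1
        push Not at hj1 hj3
        refine place_step (K := K) (fun v => Good v s t) (fun v => Bd t v)
          (fun v => evs s c ∈ v.asIdeal) (by
            intro v hv
            by_cases h4 : evs s c ∈ v.asIdeal
            · exact Or.inr h4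
            · exact Or.inl ⟨hv, h4⟩) (2 ^ j) η Lr (hdiv (2 ^ j)) ?_ hj1
        rw [hTh] at hj3
        have h7 : η / 2 * (2 / η * (1 + Lr) + 1) ≤ η / 2 * (Pl K (2 ^ j)).card :=
          mul_le_mul_of_nonneg_left hj3 (by positivity)
        have h8 : η / 2 * (2 / η * (1 + Lr) + 1) = 1 + Lr + η / 2 := by
          field_simp
        rw [h8] at h7
        linarith
      · refine hfs.trans (hcmp.trans ?_)
        exact mul_le_mul_of_nonneg_left hsc2 (by positivity)
  have hbox := box_count (K := K) X hUfin.toFinset c hc0 hUm (C * Q₁) (by positivity) hmain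
  refine hbox.trans ?_
  have h3 : (c.totalDegree : ℝ) * (X : ℝ) ^ r ≤ c.totalDegree * ((X : ℝ) ^ r * Q₁) := by
    refine mul_le_mul_of_nonneg_left ?_ (by positivity)
    nlinarith
  have h4 : (0 : ℝ) ≤ X₀ * ((X : ℝ) ^ r * Q₁) := by positivity
  nlinarith

end Pool.Agent.Helper15.BX
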