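import Pool.Agent.Helper62.BX.Stm
import Pool.Graph.R_pool_sql_team_seeded_3997aac3.Q267.AP.LS
import Pool.Graph.R_pool_sql_team_seeded_3997aac3.Q267.DC.Sup2

/-!
# The sieve at all scales, in several parameters (package X_Sieve)
-/

set_option autoImplicit false

open Finset

namespace Pool.Agent.Helper15.BX

open NumberField IsDedekindDomain Filter Topology
open Pool.Agent.W401.Cheb Pool.Agent.W528.Ord
open Pool.Agent.Q267.AP
open Pool.Agent.Q267.OD (allP)
open Pool.Agent.Q267.DC (abs_sup)
open Pool.Agent.Helper62.BX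

open Classical in
theorem x_sieve : X_Sieve := by
  intro K _ _ r Good hPer hfew η hη θ hθ0 hθ1
  obtain ⟨A, hA⟩ := abs_sup K (J := Fin (r + 1)) (Γ := Unit)
    (fun _ v u => Good v (fun i => u i.castSucc) (u (Fin.last r))) (fun _ => True) 1
    one_pos le_rfl (dens_true (K := K)) 1 zero_le_one le_rfl (by
      intro ε hε
      refine ⟨fun v => (Ideal.absNorm v.asIdeal).Prime ∧ v ∉ (hfew ε hε).toFinset, ?_,
        fun v hv => ⟨trivial, hv.1⟩, ?_⟩
      · have h1 : Tendsto (fun N => dens (fun v : HeightOneSpectrum (𝓞 K) =>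
            ¬ (Ideal.absNorm v.asIdeal).Prime) N +
              dens (fun v => v ∈ (hfew ε hε).toFinset) N) atTop (𝓝 (0 + 0)) :=
          (dens_not_prime (K := K)).add (dens_finite _ (Finset.finite_toSet _))
        rw [add_zero] at h1
        refine squeeze_zero (fun N => dens_nonneg _ _) (fun N => ?_) h1
        refine le_trans (dens_mono (Q := fun v => ¬ (Ideal.absNorm v.asIdeal).Prime ∨
          v ∈ (hfew ε hε).toFinset) ?_ N) (dens_or _ _ N)
        rintro v ⟨_, hv⟩
        by_cases h3 : (Ideal.absNorm v.asIdeal).Prime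
        · right
          by_contra h4
          exact hv ⟨h3, h4⟩
        · exact Or.inl h3
      · rintro _ v ⟨hv, hvF⟩
        refine ⟨fun u => hPer v hv _ _, ?_⟩
        set U : Finset (Fin (r + 1) → ℕ) :=
          Fintype.piFinset fun _ : Fin (r + 1) => range (Ideal.absNorm v.asIdeal) with hU
        have hbad : ((U.filter fun u => ¬ Good v (fun i => u i.castSucc)
            (u (Fin.last r))).card : ℝ) ≤ ε * (Ideal.absNorm v.asIdeal : ℝ) ^ (r + 1) := by
          by_contra hno
          exact hvF ((hfew ε hε).mem_toFinset.mpr ⟨hv, not_le.mp hno⟩)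
        refine ⟨U.filter fun u => Good v (fun i => u i.castSucc) (u (Fin.last r)), ?_, ?_⟩
        · intro a ha
          rw [mem_filter, hU, Fintype.mem_piFinset] at ha
          exact ⟨fun j => mem_range.mp (ha.1 j), ha.2⟩
        · have h2 := card_filter_add_card_filter_not (s := U)
            (fun u : Fin (r + 1) → ℕ => Good v (fun i => u i.castSucc) (u (Fin.last r)))
          have h4 : U.card = (Ideal.absNorm v.asIdeal) ^ (r + 1) := by
            rw [hU, Fintype.card_piFinset]
            simp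
          rw [h4] at h2
          have hp : (0 : ℝ) < (Ideal.absNorm v.asIdeal : ℝ) ^ (r + 1) := by
            have := hv.pos
            positivity
          rw [Fintype.card_fin, le_div_iff₀ hp]
          have h3 : ((U.filter fun u : Fin (r + 1) → ℕ =>
              Good v (fun i => u i.castSucc) (u (Fin.last r))).card : ℝ) +
              ((U.filter fun u : Fin (r + 1) → ℕ =>
              ¬ Good v (fun i => u i.castSucc) (u (Fin.last r))).card : ℝ) =
                (Ideal.absNorm v.asIdeal : ℝ) ^ (r + 1) := by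
            exact_mod_cast h2
          linarith) (η / 2) (by positivity) θ hθ0 hθ1
  refine ⟨A, fun X Q₀ Q₁ hQ₀ => ?_⟩
  obtain ⟨δ, hδ, h⟩ := hA ()
  have h1 := h X Q₀ Q₁ hQ₀
  simp only [true_and] at h1
  rw [Fintype.card_fin, Nat.add_sub_cancel] at h1
  refine le_trans ?_ h1
  have hfin : {u : Fin (r + 1) → ℕ | (∀ j, 1 ≤ u j ∧ u j ≤ X) ∧ ∃ Q, Q₀ ≤ Q ∧ Q ≤ Q₁ ∧
      η / 2 * allP K Q < |(Nat.card {v : HeightOneSpectrum (𝓞 K) // Ideal.absNorm v.asIdeal ≤ Q ∧
          Good v (fun i => u i.castSucc) (u (Fin.last r))} : ℝ) - δ Q * allP K Q|}.Finite := by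
    refine (Finset.finite_toSet (Fintype.piFinset fun _ : Fin (r + 1) =>
      Finset.Icc 1 X)).subset ?_
    intro t ht
    rw [Finset.mem_coe, Fintype.mem_piFinset]
    exact fun j => Finset.mem_Icc.mpr (ht.1 j)
  refine Nat.cast_le.mpr ?_
  refine Set.ncard_le_ncard ?_ hfin
  rintro u ⟨hu, Q, hq1, hq2, hq3⟩
  refine ⟨hu, Q, hq1, hq2, ?_⟩
  have h2 := hδ Q
  have hq3' : (Nat.card {v : HeightOneSpectrum (𝓞 K) // Ideal.absNorm v.asIdeal ≤ Q ∧
          Good v (fun i => u i.castSucc) (u (Fin.last r))} : ℝ) < (1 - η) * allP K Q := hq3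
  have h3 : (0 : ℝ) ≤ allP K Q := Nat.cast_nonneg _
  have h4 : (1 - η / 2) * (allP K Q : ℝ) ≤ δ Q * allP K Q :=
    mul_le_mul_of_nonneg_right (by linarith) h3
  rw [abs_sub_comm]
  refine lt_of_lt_of_le ?_ (le_abs_self _)
  nlinarith

end Pool.Agent.Helper15.BX
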